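import Mathlib

/-! Korovin mappings and Korovin orbits. -/

namespace N636KO

open Set

/-- The translate `gf` of `f : G → X`, `(gf)(x) = f(xg)`. -/
def act {G X : Type*} [Mul G] (g : G) (f : G → X) : G → X := fun x => f (x * g)

/-- The orbit `G_f = {gf : g ∈ G}` as a subset of `X^G`. -/
def orbit {G X : Type*} [Mul G] (f : G → X) : Set (G → X) := Set.range (fun g : G => act g f)

/-- `f` is a Korovin mapping: `π_M (G_f) = X^M` for every countable `M ⊆ G`, where `π_M` is the
restriction map `X^G → X^M`. -/
def IsKorovin {G X : Type*} [Mul G] (f : G → X) : Prop :=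
  ∀ M : Set G, M.Countable → (fun h : G → X => M.domRestrict h) '' (orbit f) = Set.univ

/-- `π_M (G_f) = X^M` for every `M ⊆ G` with `|M| < |G|`. -/
def IsStrongKorovin {G X : Type*} [Mul G] (f : G → X) : Prop :=
  ∀ M : Set G, Cardinal.mk M < Cardinal.mk G →
    (fun h : G → X => M.domRestrict h) '' (orbit f) = Set.univ

end N636KO
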