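import Pool.Agent.N636.KO.Defs

namespace N636KO

open Set Cardinal

universe u v

theorem sk_ext {G : Type u} {X : Type v} [Mul G] {f : G → X} (hf : IsStrongKorovin f)
    (M : Set G) (hM : #M < #G) (p : G → X) : ∃ g : G, ∀ x ∈ M, f (x * g) = p x := by
  have h := hf M hM
  have h2 : (fun x : M => p x) ∈ (fun h : G → X => M.domRestrict h) '' (orbit f) := by
    rw [h]; exact mem_univ _
  obtain ⟨k, ⟨g, hg⟩, hk⟩ := h2
  refine ⟨g, fun x hx => ?_⟩
  have h3 := congrFun hk ⟨x, hx⟩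
  have h4 : k x = p x := h3
  rw [← h4, ← hg]
  rfl

theorem exists_wo' (G : Type u) :
    ∃ (_ : LinearOrder G) (_ : WellFoundedLT G), ∀ x : G, #(Set.Iio x) < #G := by
  classical
  obtain ⟨r, wo, hr⟩ := Cardinal.exists_ord_eq G
  let _ : LinearOrder G := linearOrderOfSTO r
  have _ : WellFoundedLT G := ⟨wo.wf⟩
  refine ⟨inferInstance, inferInstance, fun x => ?_⟩
  have h1 : Ordinal.card (Ordinal.typein r x) < #G := Cardinal.card_typein_lt x hr
  refine lt_of_le_of_lt (le_of_eq ?_) h1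
  rfl

theorem ins_lt {G : Type u} (hunc : ℵ₀ < #G) (x : G) (s : Set G) (hs : #s < #G) :
    #(insert x s : Set G) < #G :=
  lt_of_le_of_lt Cardinal.mk_insert_le
    (Cardinal.add_lt_of_lt hunc.le hs (lt_of_lt_of_le Cardinal.one_lt_aleph0 hunc.le))

theorem bound' {G : Type u} [LinearOrder G] (hreg : (#G).IsRegular) (hunc : ℵ₀ < #G)
    (hc : ∀ x : G, #(Set.Iio x) < #G) (C : Set G) (hC : #C < #G) :
    ∃ z, ∀ c ∈ C, c < z := by
  by_contra hcon
  push Not at hcon
  have h1 : (Set.univ : Set G) ⊆ ⋃ c, ⋃ (_ : c ∈ C), (insert c (Set.Iio c)) := by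
    intro z _
    obtain ⟨c, hcC, hzc⟩ := hcon z
    simp only [mem_iUnion]
    refine ⟨c, hcC, ?_⟩
    rcases eq_or_lt_of_le hzc with h | h
    · exact Or.inl h
    · exact Or.inr h
  have h2 : #(⋃ c, ⋃ (_ : c ∈ C), (insert c (Set.Iio c)) : Set G) < #G :=
    (Cardinal.card_biUnion_lt_iff_forall_of_isRegular hreg hC).mpr
      (fun c _ => ins_lt hunc c _ (hc c))
  have h3 := Cardinal.mk_le_mk_of_subset h1
  rw [Cardinal.mk_univ] at h3
  exact absurd h2 (not_lt.mpr h3)

theorem sep_pair' {G : Type u} {X : Type v} [CommGroup G] [TopologicalSpace X] [Nontrivial X]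
    {f : G → X} (hunc : ℵ₀ < #G) (hf : IsStrongKorovin f) [T1Space (orbit f)] :
    ∃ (a b : X) (O : Set X), IsOpen O ∧ b ∈ O ∧ a ∉ O := by
  obtain ⟨a0, b0, hab⟩ := exists_pair_ne X
  have hone : #({1} : Set G) < #G := by
    rw [Cardinal.mk_singleton]; exact lt_of_lt_of_le Cardinal.one_lt_aleph0 hunc.le
  obtain ⟨g1, hg1⟩ := sk_ext hf {1} hone (fun _ => a0)
  obtain ⟨g2, hg2⟩ := sk_ext hf {1} hone (fun _ => b0)
  have e1 := hg1 1 rfl
  have e2 := hg2 1 rfl
  let h1 : orbit f := ⟨act g1 f, ⟨g1, rfl⟩⟩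
  let h2 : orbit f := ⟨act g2 f, ⟨g2, rfl⟩⟩
  have hne : h2 ≠ h1 := by
    intro h
    have h3 : act g2 f 1 = act g1 f 1 := congrFun (congrArg Subtype.val h) 1
    simp only [act] at h3
    exact hab (by rw [← e1, ← e2, h3])
  have ho : IsOpen ({h1}ᶜ : Set (orbit f)) := isOpen_compl_singleton
  obtain ⟨U', hU', hUe⟩ := isOpen_induced_iff.mp ho
  have hm2 : (h2 : G → X) ∈ U' := by
    have : h2 ∈ ((Subtype.val : orbit f → (G → X)) ⁻¹' U') := by rw [hUe]; exact hne
    exact this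
  have hm1 : (h1 : G → X) ∉ U' := by
    intro hh
    have : h1 ∈ ((Subtype.val : orbit f → (G → X)) ⁻¹' U') := hh
    rw [hUe] at this
    exact this rfl
  obtain ⟨I, u, hu, hsub⟩ := isOpen_pi_iff.mp hU' _ hm2
  have : ∃ i ∈ I, (h1 : G → X) i ∉ u i := by
    by_contra hcon
    push Not at hcon
    exact hm1 (hsub (fun i hi => hcon i hi))
  obtain ⟨i, hi, hni⟩ := this
  exact ⟨(h1 : G → X) i, (h2 : G → X) i, u i, (hu i hi).1, (hu i hi).2, hni⟩

theorem finite_dep' {G : Type u} {X : Type v} [TopologicalSpace X] {U' : Set (G → X)}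
    (hU' : IsOpen U') (h : G → X) (hh : h ∈ U') :
    ∃ I : Finset G, ∀ k : G → X, (∀ i ∈ I, k i = h i) → k ∈ U' := by
  obtain ⟨I, u, hu, hsub⟩ := isOpen_pi_iff.mp hU' _ hh
  refine ⟨I, fun k hk => hsub (fun i hi => ?_)⟩
  rw [hk i hi]
  exact (hu i hi).2

theorem gen {G : Type u} {X : Type v} [CommGroup G] [TopologicalSpace X] [Nontrivial X]
    (hreg : (#G).IsRegular) (hunc : ℵ₀ < #G) (f : G → X) (hf : IsStrongKorovin f) :
    ¬ (T1Space (orbit f) ∧ NormalSpace (orbit f)) := by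
  classical
  rintro ⟨hT1, hN⟩
  obtain ⟨a, b, O, hO, hbO, haO⟩ := sep_pair' hunc hf
  obtain ⟨lo, wf, hc⟩ := exists_wo' G
  have hfin : ∀ I : Finset G, #((I : Set G)) < #G := fun I =>
    lt_of_lt_of_le (Cardinal.lt_aleph0_iff_set_finite.mpr I.finite_toSet) hunc.le
  have hcnt : ∀ C : Set G, C.Countable → #C < #G := fun C hC =>
    lt_of_le_of_lt (Cardinal.le_aleph0_iff_set_countable.mpr hC) hunc
  have hab : ∀ x : G, ∃ g : G, (∀ y, y < x → f (y * g) = a) ∧ f (x * g) = b := by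
    intro x
    obtain ⟨g, hg⟩ := sk_ext hf (insert x (Set.Iio x)) (ins_lt hunc x _ (hc x))
      (fun y => if y < x then a else b)
    refine ⟨g, fun y hy => ?_, ?_⟩
    · rw [hg y (Or.inr hy)]; simp [hy]
    · rw [hg x (Or.inl rfl)]; simp
  choose g hg1 hg2 using hab
  let P : G → orbit f := fun x => ⟨act (g x) f, ⟨g x, rfl⟩⟩
  have hPval : ∀ x z, (P x : G → X) z = f (z * g x) := fun x z => rfl
  have hbne : a ≠ b := fun h => haO (h ▸ hbO)
  have hPinj : ∀ x y, x < y → P x ≠ P y := by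
    intro x y hxy h
    have h1 : (P x : G → X) x = (P y : G → X) x := by rw [h]
    rw [hPval, hPval, hg2 x, hg1 y x hxy] at h1
    exact hbne h1.symm
  have hclosed : ∀ L : Set G, IsClosed (P '' L) := by
    intro L
    rw [← isOpen_compl_iff, isOpen_iff_mem_nhds]
    rintro ⟨h, ⟨k, hk⟩⟩ hnot
    have hk' : act k f = h := hk
    subst hk'
    obtain ⟨y, hy⟩ := sk_ext hf {k} (hcnt _ (Set.countable_singleton k)) (fun _ => b)
    have hyk := hy k rfl
    have hcount : #(insert k (g '' (insert y (Set.Iio y) ∩ L)) : Set G) < #G :=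
      ins_lt hunc k _ (lt_of_le_of_lt Cardinal.mk_image_le
        (lt_of_le_of_lt (Cardinal.mk_le_mk_of_subset Set.inter_subset_left)
          (ins_lt hunc y _ (hc y))))
    obtain ⟨z, hz⟩ := sk_ext hf _ hcount (fun m => if m = k then b else a)
    have hzk : f (k * z) = b := by rw [hz k (Or.inl rfl)]; simp
    have hzg : ∀ x, x ≤ y → x ∈ L → f (z * g x) = a := by
      intro x hxy hxL
      have hmem : g x ∈ insert k (g '' (insert y (Set.Iio y) ∩ L)) := by
        refine Or.inr ⟨x, ⟨?_, hxL⟩, rfl⟩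
        rcases eq_or_lt_of_le hxy with h | h
        · exact Or.inl h
        · exact Or.inr h
      have hne : g x ≠ k := by
        intro he
        apply hnot
        refine ⟨x, hxL, ?_⟩
        apply Subtype.ext
        show act (g x) f = act k f
        rw [he]
      rw [mul_comm, hz _ hmem]
      simp [hne]
    have hopen : IsOpen {h' : orbit f | (h' : G → X) y ∈ O ∧ (h' : G → X) z ∈ O} := by
      have c1 : Continuous (fun h' : orbit f => (h' : G → X) y) :=
        (continuous_apply y).comp continuous_subtype_val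
      have c2 : Continuous (fun h' : orbit f => (h' : G → X) z) :=
        (continuous_apply z).comp continuous_subtype_val
      exact (hO.preimage c1).inter (hO.preimage c2)
    refine Filter.mem_of_superset (hopen.mem_nhds ?_) ?_
    · constructor
      · show f (y * k) ∈ O
        rw [mul_comm, hyk]; exact hbO
      · show f (z * k) ∈ O
        rw [mul_comm, hzk]; exact hbO
    · rintro h' ⟨h1, h2⟩ ⟨x, hxL, hx⟩
      rw [← hx] at h1 h2
      rcases le_or_gt x y with hxy | hxy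
      · have : f (z * g x) ∈ O := h2
        rw [hzg x hxy hxL] at this
        exact haO this
      · have : f (y * g x) ∈ O := h1
        rw [hg1 x y hxy] at this
        exact haO this
  let L1 : Set G := {x | ∃ y, y < x ∧ ∀ z, ¬ (y < z ∧ z < x)}
  have hdisj : Disjoint (P '' L1) (P '' L1ᶜ) := by
    rw [Set.disjoint_left]
    rintro _ ⟨x, hx, rfl⟩ ⟨y, hy, he⟩
    rcases lt_trichotomy x y with h | h | h
    · exact hPinj x y h he.symm
    · exact hy (h ▸ hx)
    · exact hPinj y x h he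
  obtain ⟨U, V, hU, hV, hAU, hBV, hUV⟩ := normal_separation (hclosed L1) (hclosed L1ᶜ) hdisj
  obtain ⟨U', hU', hUe⟩ := isOpen_induced_iff.mp hU
  obtain ⟨V', hV', hVe⟩ := isOpen_induced_iff.mp hV
  have hF1 : ∀ x : G, ∃ I : Finset G, x ∈ L1 →
      ∀ k : G → X, (∀ i ∈ I, k i = f (i * g x)) → k ∈ U' := by
    intro x
    by_cases hx : x ∈ L1
    · have hm : (P x : G → X) ∈ U' := by
        have : P x ∈ ((Subtype.val : orbit f → (G → X)) ⁻¹' U') := by
          rw [hUe]; exact hAU ⟨x, hx, rfl⟩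
        exact this
      obtain ⟨I, hI⟩ := finite_dep' hU' _ hm
      exact ⟨I, fun _ => hI⟩
    · exact ⟨∅, fun h => absurd h hx⟩
  have hF2 : ∀ x : G, ∃ I : Finset G, x ∉ L1 →
      ∀ k : G → X, (∀ i ∈ I, k i = f (i * g x)) → k ∈ V' := by
    intro x
    by_cases hx : x ∈ L1
    · exact ⟨∅, fun h => absurd hx h⟩
    · have hm : (P x : G → X) ∈ V' := by
        have : P x ∈ ((Subtype.val : orbit f → (G → X)) ⁻¹' V') := by
          rw [hVe]; exact hBV ⟨x, hx, rfl⟩
        exact this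
      obtain ⟨I, hI⟩ := finite_dep' hV' _ hm
      exact ⟨I, fun _ => hI⟩
  choose F1 hF1 using hF1
  choose F2 hF2 using hF2
  -- successor
  have hsucc : ∀ s : G, ∃ t, s < t ∧ ∀ z, ¬ (s < z ∧ z < t) := by
    intro s
    obtain ⟨w, hw⟩ := bound' hreg hunc hc {s} (hcnt _ (Set.countable_singleton s))
    have hne : ({t : G | s < t}).Nonempty := ⟨w, hw s rfl⟩
    obtain ⟨t, ht, hmin⟩ := WellFounded.has_min (wellFounded_lt (α := G)) _ hne
    exact ⟨t, ht, fun z hz => hmin z hz.1 hz.2⟩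
  choose σ hσ1 hσ2 using hsucc
  have hnext : ∀ s : G, ∃ t, σ s < t ∧ ∀ x, x ≤ s → ∀ i ∈ F1 x, i < t := by
    intro s
    have hcount : #(insert (σ s) (⋃ x, ⋃ (_ : x ∈ insert s (Set.Iio s)),
        ((F1 x : Finset G) : Set G)) : Set G) < #G :=
      ins_lt hunc _ _ ((Cardinal.card_biUnion_lt_iff_forall_of_isRegular hreg
        (ins_lt hunc s _ (hc s))).mpr (fun x _ => hfin (F1 x)))
    obtain ⟨t, ht⟩ := bound' hreg hunc hc _ hcount
    refine ⟨t, ht _ (Or.inl rfl), fun x hx i hi => ht i (Or.inr ?_)⟩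
    simp only [mem_iUnion]
    refine ⟨x, ?_, hi⟩
    rcases eq_or_lt_of_le hx with h | h
    · exact Or.inl h
    · exact Or.inr h
  choose nx hnx1 hnx2 using hnext
  let s : ℕ → G := fun n => nx^[n] 1
  have hs : ∀ n, s (n + 1) = nx (s n) := fun n => Function.iterate_succ_apply' nx n 1
  have hslt : ∀ n, s n < s (n + 1) := fun n => by
    rw [hs n]; exact lt_trans (hσ1 _) (hnx1 _)
  have hsmono : StrictMono s := strictMono_nat_of_lt_succ hslt
  have hne : ({z : G | ∀ n, s n < z}).Nonempty := by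
    obtain ⟨z, hz⟩ := bound' hreg hunc hc (Set.range s) (hcnt _ (Set.countable_range s))
    exact ⟨z, fun n => hz _ ⟨n, rfl⟩⟩
  obtain ⟨γ, hγ, hmin⟩ := WellFounded.has_min (wellFounded_lt (α := G)) _ hne
  have hγ' : ∀ n, s n < γ := hγ
  have hbelow : ∀ y, y < γ → ∃ n, y ≤ s n := by
    intro y hy
    by_contra hcon
    push Not at hcon
    exact hmin y hcon hy
  have hγL : γ ∉ L1 := by
    rintro ⟨y, hy, hz⟩
    obtain ⟨n, hn⟩ := hbelow y hy
    exact hz (s (n + 1)) ⟨lt_of_le_of_lt hn (hslt n), hγ' _⟩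
  have hN : ∃ N, ∀ i ∈ F2 γ, i < γ → i ≤ s N := by
    have : ∀ i : G, ∃ n, i < γ → i ≤ s n := by
      intro i
      by_cases hi : i < γ
      · obtain ⟨n, hn⟩ := hbelow i hi
        exact ⟨n, fun _ => hn⟩
      · exact ⟨0, fun h => absurd h hi⟩
    choose n hn using this
    refine ⟨(F2 γ).sup n, fun i hi hlt => le_trans (hn i hlt) (hsmono.monotone (Finset.le_sup hi))⟩
  obtain ⟨N, hN⟩ := hN
  have hxL : σ (s N) ∈ L1 := ⟨s N, hσ1 _, hσ2 _⟩
  have hx1 : σ (s N) < s (N + 1) := by rw [hs N]; exact hnx1 _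
  have hFx : ∀ i ∈ F1 (σ (s N)), i < γ := by
    intro i hi
    have h1 := hnx2 (s (N + 1)) (σ (s N)) hx1.le i hi
    rw [← hs (N + 1)] at h1
    exact lt_trans h1 (hγ' _)
  have hcomp : ∀ i ∈ F1 (σ (s N)), i ∈ F2 γ → f (i * g (σ (s N))) = f (i * g γ) := by
    intro i hi hi2
    have h1 := hFx i hi
    have h2 := hN i hi2 h1
    rw [hg1 γ i h1, hg1 _ i (lt_of_le_of_lt h2 (hσ1 _))]
  obtain ⟨k, hk⟩ := sk_ext hf (((F1 (σ (s N)) ∪ F2 γ : Finset G)) : Set G)
    (hfin _)
    (fun i => if i ∈ F1 (σ (s N)) then f (i * g (σ (s N))) else f (i * g γ))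
  have hkU : act k f ∈ U' := by
    apply hF1 _ hxL
    intro i hi
    show f (i * k) = _
    rw [hk i (by simp [hi])]
    simp [hi]
  have hkV : act k f ∈ V' := by
    apply hF2 _ hγL
    intro i hi
    show f (i * k) = _
    rw [hk i (by simp [hi])]
    by_cases h : i ∈ F1 (σ (s N))
    · simp only [h, if_true]
      exact hcomp i h hi
    · simp [h]
  have hkU2 : (⟨act k f, ⟨k, rfl⟩⟩ : orbit f) ∈ U := by
    rw [← hUe]; exact hkU
  have hkV2 : (⟨act k f, ⟨k, rfl⟩⟩ : orbit f) ∈ V := by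
    rw [← hVe]; exact hkV
  exact Set.disjoint_left.mp hUV hkU2 hkV2

theorem aleph_one {G : Type u} {X : Type v} [CommGroup G] [TopologicalSpace X] [Nontrivial X]
    (hG : #G = ℵ₁) (f : G → X) (hf : IsKorovin f) :
    ¬ (T1Space (orbit f) ∧ NormalSpace (orbit f)) := by
  apply gen
  · rw [hG]; exact Cardinal.isRegular_aleph_one
  · rw [hG]; exact Cardinal.aleph0_lt_aleph_one
  · intro M hM
    apply hf
    rw [hG, ← Cardinal.succ_aleph0, Order.lt_succ_iff] at hM
    exact Cardinal.le_aleph0_iff_set_countable.mp hM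

end N636KO
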